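import Pool.Agent.Y861.RT.Gen
import Pool.Agent.W181.RT.Fin2

/-!
# The Reiner–Tudose identity, and the structure behind it

`Coh ℓ k` is the rational cohomology ring of the Grassmannian of `ℓ`-dimensional subspaces of
`ℂ ^ (k + ℓ)`, graded by half the cohomological degree.  For `m ≤ min k ℓ` let `low ℓ k m` be the
subalgebra generated by the homogeneous elements of degree at most `m`, and let `minors ℓ k m` be
the ideal generated by the `m × m` minors of the Hankel matrix of the power sums (rows arbitrary,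
columns `1, ..., m`).  We prove

* the Hilbert series of `low ℓ k m` is the one conjectured by Reiner and Tudose;
* the quotient by `minors ℓ k m` has Hilbert series `∑_{i < m} q ^ (i * i) [k, i] [ℓ, i]`, and the
  annihilator of `minors ℓ k m` has Hilbert series
  `∑_{i < m} q ^ ((k - i) * (ℓ - i)) [k, i] [ℓ, i]`;
* the annihilator of `minors ℓ k m` is contained in the subalgebra `low ℓ k m`;
* a polynomial `F` in the power sums `p_1, ..., p_m` belongs to the smaller subalgebra
  `low ℓ k (m - 1)` if and only if its derivative with respect to `p_m` annihilates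
  `minors ℓ k m`.
-/

set_option autoImplicit false

open Polynomial Module

namespace Pool.Agent.Results.MP_1c30b8_co.MinorsAndSubalgebras

/-- The ambient polynomial ring `ℚ[e_1, ..., e_ℓ, h_1, ..., h_k]`. -/
abbrev Amb (ℓ k : ℕ) : Type := MvPolynomial (Fin ℓ ⊕ Fin k) ℚ

/-- `1 - e_1 z + e_2 z ^ 2 - ...` -/
noncomputable def eGen (ℓ k : ℕ) : Polynomial (Amb ℓ k) :=
  1 + ∑ i : Fin ℓ, Polynomial.C ((-1 : Amb ℓ k) ^ (i.val + 1) * MvPolynomial.X (Sum.inl i))
    * (Polynomial.X : Polynomial (Amb ℓ k)) ^ (i.val + 1)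

/-- `1 + h_1 z + h_2 z ^ 2 + ...` -/
noncomputable def hGen (ℓ k : ℕ) : Polynomial (Amb ℓ k) :=
  1 + ∑ j : Fin k, Polynomial.C (MvPolynomial.X (Sum.inr j) : Amb ℓ k)
    * (Polynomial.X : Polynomial (Amb ℓ k)) ^ (j.val + 1)

/-- The defining ideal: the coefficients of positive degree of the product of the two series. -/
noncomputable def rel (ℓ k : ℕ) : Ideal (Amb ℓ k) :=
  Ideal.span {p : Amb ℓ k | ∃ n : ℕ, 1 ≤ n ∧ p = (eGen ℓ k * hGen ℓ k).coeff n}

/-- The cohomology ring of the Grassmannian. -/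
abbrev Coh (ℓ k : ℕ) : Type := Amb ℓ k ⧸ rel ℓ k

/-- The degrees of the variables: `deg e_i = deg h_i = i`. -/
def wts (ℓ k : ℕ) : Fin ℓ ⊕ Fin k → ℕ :=
  Sum.elim (fun i : Fin ℓ => i.val + 1) (fun j : Fin k => j.val + 1)

/-- The homogeneous part of degree `d` of the cohomology ring. -/
noncomputable def part (ℓ k d : ℕ) : Submodule ℚ (Coh ℓ k) :=
  Submodule.map (Ideal.Quotient.mkₐ ℚ (rel ℓ k)).toLinearMap
    (MvPolynomial.weightedHomogeneousSubmodule ℚ (wts ℓ k) d)

/-- The subalgebra generated by the homogeneous elements of degree at most `m`. -/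
noncomputable def low (ℓ k m : ℕ) : Subalgebra ℚ (Coh ℓ k) :=
  Algebra.adjoin ℚ {x : Coh ℓ k | ∃ e : ℕ, e ≤ m ∧ x ∈ part ℓ k e}

/-- The power sum `p_(a+1)`: the coefficient of `z ^ a` of `h'(z) / h(z) = h'(z) e(z)`. -/
noncomputable def psum (ℓ k a : ℕ) : Coh ℓ k :=
  (derivative ((hGen ℓ k).map (Ideal.Quotient.mk (rel ℓ k))) *
    (eGen ℓ k).map (Ideal.Quotient.mk (rel ℓ k))).coeff a

/-- The ideal generated by the determinants `det (p_(α l + c + 1))_{l, c < m}`, for all choices of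
the rows `α`. -/
noncomputable def minors (ℓ k m : ℕ) : Ideal (Coh ℓ k) :=
  Ideal.span (Set.range fun α : Fin m → ℕ =>
    Matrix.det (Matrix.of fun (l c : Fin m) => psum ℓ k (α l + (c : ℕ))))

/-- The annihilator of an ideal, as a subspace. -/
def ann {ℓ k : ℕ} (I : Ideal (Coh ℓ k)) : Submodule ℚ (Coh ℓ k) where
  carrier := {x | ∀ z ∈ I, x * z = 0}
  add_mem' := by
    intro x y hx hy z hz
    rw [add_mul, hx z hz, hy z hz, add_zero]
  zero_mem' := by intro z _; rw [zero_mul]
  smul_mem' := by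
    intro c x hx z hz
    rw [smul_mul_assoc, hx z hz, smul_zero]

/-- Gaussian binomial coefficients, as the generating functions of the subsets of size `r` of
`{0, ..., n - 1}` by their sum. -/
noncomputable def gauss (n r : ℕ) : Polynomial ℕ :=
  ∑ S ∈ (Finset.univ : Finset (Fin n)).powersetCard r,
    (Polynomial.X : Polynomial ℕ) ^ ((∑ s ∈ S, (s : ℕ)) - r * (r - 1) / 2)

/-- The Hilbert series conjectured by Reiner and Tudose. -/
noncomputable def series (ℓ k m : ℕ) : Polynomial ℕ :=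
  1 + ∑ i ∈ Finset.Icc 1 m, (Polynomial.X : Polynomial ℕ) ^ i * gauss k i *
    ∑ j ∈ Finset.range (ℓ - i + 1),
      (Polynomial.X : Polynomial ℕ) ^ (j * (k - i + 1)) * gauss (i + j - 1) j

/-- The dimension of the degree `d` part of a subspace. -/
noncomputable def hilb {ℓ k : ℕ} (V : Submodule ℚ (Coh ℓ k)) (d : ℕ) : ℕ :=
  finrank ℚ ↥(V ⊓ part ℓ k d)

/-- The subalgebra `low ℓ k m` as a subspace. -/
noncomputable def lowS (ℓ k m : ℕ) : Submodule ℚ (Coh ℓ k) := Subalgebra.toSubmodule (low ℓ k m)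

/-- The ideal `minors ℓ k m` as a subspace. -/
noncomputable def minorsS (ℓ k m : ℕ) : Submodule ℚ (Coh ℓ k) :=
  (minors ℓ k m).restrictScalars ℚ

/-- `∑_{i < m} q ^ (i * i) [k, i] [ℓ, i]` -/
noncomputable def quotSeries (ℓ k m : ℕ) : Polynomial ℕ :=
  ∑ i ∈ Finset.range m, (Polynomial.X : Polynomial ℕ) ^ (i * i) * gauss k i * gauss ℓ i

/-- `∑_{i < m} q ^ ((k - i) * (ℓ - i)) [k, i] [ℓ, i]` -/
noncomputable def annSeries (ℓ k m : ℕ) : Polynomial ℕ :=
  ∑ i ∈ Finset.range m,
    (Polynomial.X : Polynomial ℕ) ^ ((k - i) * (ℓ - i)) * gauss k i * gauss ℓ i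

/-- The value of a polynomial in `m` variables at the power sums `p_1, ..., p_m`. -/
noncomputable def val (ℓ k m : ℕ) (F : MvPolynomial (Fin m) ℚ) : Coh ℓ k :=
  MvPolynomial.aeval (fun i : Fin m => psum ℓ k (i : ℕ)) F

/-- `F(p_1, ..., p_(n+1))` is in the subalgebra `low ℓ k n` if and only if the derivative of `F` with
respect to the last variable, evaluated at the power sums, annihilates `minors ℓ k (n + 1)`. -/
def Criterion (ℓ k n : ℕ) : Prop :=
  ∀ F : MvPolynomial (Fin (n + 1)) ℚ, val ℓ k (n + 1) F ∈ low ℓ k n ↔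
    ∀ z ∈ minors ℓ k (n + 1), val ℓ k (n + 1) (MvPolynomial.pderiv (Fin.last n) F) * z = 0

theorem low_eq (ℓ k m : ℕ) : Subalgebra.toSubmodule (low ℓ k m) =
    Pool.Agent.W181.RT.Rm ℓ k m := by
  have h := Pool.Agent.W181.RT.adj Pool.Agent.W509.RT.t_TR1 Pool.Agent.W509.RT.t_TR2 ℓ k m
  unfold Pool.Agent.W181.RT.Rm
  rw [← h]
  unfold low
  congr 2
  ext x
  constructor
  · rintro ⟨e, he, p, hp, rfl⟩
    exact ⟨e, he, p, hp, rfl⟩
  · rintro ⟨e, he, p, hp, rfl⟩
    exact ⟨e, he, p, hp, rfl⟩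

theorem part_eq (ℓ k d : ℕ) : part ℓ k d = Pool.Agent.W181.RT.RD ℓ k d :=
  Pool.Agent.W509.RT.t_TR1 ℓ k d

/-- Main theorem: for `m ≤ min k ℓ` the Reiner–Tudose identity, the Hilbert series of the quotient by
`minors ℓ k m` and of its annihilator, the inclusion of the annihilator in the subalgebra
`low ℓ k m`, and the criterion for the membership in the next smaller subalgebra. -/
theorem result (ℓ k m : ℕ) (hm : m ≤ min k ℓ) :
    (∀ d : ℕ, hilb (lowS ℓ k m) d = (series ℓ k m).coeff d) ∧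
    (∀ d : ℕ, hilb (⊤ : Submodule ℚ (Coh ℓ k)) d =
      hilb (minorsS ℓ k m) d + (quotSeries ℓ k m).coeff d) ∧
    (∀ d : ℕ, hilb (ann (minors ℓ k m)) d = (annSeries ℓ k m).coeff d) ∧
    ann (minors ℓ k m) ≤ lowS ℓ k m ∧
    (∀ n : ℕ, m = n + 1 → Criterion ℓ k n) := by
  refine ⟨?_, ?_, ?_, ?_, ?_⟩
  · intro d
    unfold hilb lowS
    rw [low_eq, part_eq]
    exact Pool.Agent.W181.RT.main_holds gauss (fun _ _ => rfl) ℓ k m hm d
  · intro d
    unfold hilb
    rw [top_inf_eq, part_eq]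
    rcases Nat.lt_or_ge (k * ℓ) d with hd | hd
    · have h0 : (quotSeries ℓ k m).coeff d = 0 := by
        apply Polynomial.coeff_eq_zero_of_natDegree_lt
        refine lt_of_le_of_lt (Polynomial.natDegree_sum_le_of_forall_le _ _ (n := k * ℓ) ?_) hd
        intro i hi
        have hi := Finset.mem_range.mp hi
        have hdeg := (Pool.Agent.W103.RT.t_QB0 gauss (fun _ _ => rfl)).2.2.2.2.2.2.2
        refine (Polynomial.natDegree_mul_le).trans ?_
        have h1 : ((Polynomial.X : Polynomial ℕ) ^ (i * i) * gauss k i).natDegree ≤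
            i * i + i * (k - i) :=
          (Polynomial.natDegree_mul_le).trans (add_le_add (Polynomial.natDegree_X_pow_le _)
            (hdeg k i))
        have h2 := hdeg ℓ i
        obtain ⟨a, rfl⟩ : ∃ a, k = i + a := ⟨k - i, by omega⟩
        obtain ⟨b, rfl⟩ : ∃ b, ℓ = i + b := ⟨ℓ - i, by omega⟩
        simp only [Nat.add_sub_cancel_left] at h1 h2
        nlinarith
      rw [h0, add_zero]
      have h1 := Pool.Agent.Y861.RT.quot_le ℓ k m (by omega) d
      have h2 : (Pool.Agent.Y861.RT.np ℓ k m).coeff d = 0 := h0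
      rw [h2, add_zero] at h1
      exact le_antisymm h1 (Pool.Agent.Y861.RT.quot_mono ℓ k m d)
    · exact le_antisymm (Pool.Agent.Y861.RT.quot_le ℓ k m (by omega) d)
        (Pool.Agent.Y861.RT.quot_ge ℓ k m hm d hd)
  · intro d
    unfold hilb
    rw [part_eq]
    exact Pool.Agent.Y861.RT.ann_eq (qb := gauss) (fun _ _ => rfl) ℓ k m hm d
  · unfold lowS
    rw [low_eq]
    exact Pool.Agent.Y861.RT.ann_le ℓ k m hm
  · intro n hn F
    subst hn
    have h := Pool.Agent.Y861.RT.crit ℓ k n hm F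
    rw [← low_eq] at h
    exact h

end Pool.Agent.Results.MP_1c30b8_co.MinorsAndSubalgebras
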